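import Mathlib
import Pool.Agent.Helper941.Hyp.Fin91

/-!
There is a hyperarithmetic class `K` of computable structures such that, up to isomorphism,
exactly one structure in `K` has noncomputable Scott rank.
-/

namespace Pool.Agent.Results.MP_9125cf_lc.UniqueHighRank

open Pool.Agent.Helper941.Hyp

theorem result : ∃ ar : ℕ → ℕ, Computable ar ∧ ∃ K : Set (Struct ar), HypClass K ∧
    ∃ A ∈ K, NoncomputableScottRank A ∧ ∀ B ∈ K, NoncomputableScottRank B → Iso A B :=
  main91

end Pool.Agent.Results.MP_9125cf_lc.UniqueHighRank
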